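import Pool.Agent.H9.F2.L2

/-! Two copies of a family under a third one: the entropy of the sum with a family is bounded
below by the entropies of the sums with one and with two conditionally independent samples of
the fibres of the sum of two copies. -/

set_option autoImplicit false

namespace F2

open H2INV H9F2 Finset

noncomputable section

section raw
variable {O P : Type} [Fintype O] [Fintype P] {γ : Type*}

/-- the conditionally independent square with an independent factor -/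
lemma B5_mp {m : O → ℝ} {m' : P → ℝ} (hm : IsPM m) (c : P → γ) :
    MP (cprod (prodPM m m') (fun v => c v.2)) (fun w => (w.1.1, (w.1.2, w.2.2)))
      (prodPM m (cprod m' c)) := by
  classical
  have hfib : ∀ x z, fib (prodPM m m') (fun v => c v.2) (x, z) = fib m' c z := fun x z =>
    fib_comp_of_mp (mp_snd hm) c (x, z)
  have key : ∀ x z x' z', cprod (prodPM m m') (fun v => c v.2) ((x, z), (x', z'))
      = m x' * (m x * cprod m' c (z, z')) := by
    intro x z x' z'
    unfold cprod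
    simp only [hfib]
    by_cases h : c z = c z'
    · rw [if_pos h, if_pos h]
      unfold prodPM
      simp only
      ring
    · rw [if_neg h, if_neg h]; ring
  refine mp_of_sum fun u => ?_
  simp only [Fintype.sum_prod_type, key]
  have e1 : ∀ x z, ∑ x', ∑ z', m x' * (m x * cprod m' c (z, z')) * u (x, (z, z'))
      = ∑ z', m x * cprod m' c (z, z') * u (x, (z, z')) := by
    intro x z
    have e2 : ∀ x', ∑ z', m x' * (m x * cprod m' c (z, z')) * u (x, (z, z'))
        = m x' * ∑ z', m x * cprod m' c (z, z') * u (x, (z, z')) := by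
      intro x'
      rw [Finset.mul_sum]
      exact Finset.sum_congr rfl fun z' _ => by ring
    rw [Finset.sum_congr rfl fun x' _ => e2 x', ← Finset.sum_mul, hm.sum_one, one_mul]
  rw [Finset.sum_congr rfl fun x _ => Finset.sum_congr rfl fun z _ => e1 x z]
  rfl

end raw

variable {E : Type} [AddCommGroup E]

/-- the average over the slices as a conditional entropy -/
lemma B5_avg (X Z : Fam E) :
    ∑ w, Z.m w * H (add X (add (sl Z w) (sl Z w)))
      = cent (prodPM X.m (cprod Z.m Z.J)) (fun v => X.X v.1 + (Z.X v.2.1 + Z.X v.2.2))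
          (fun v => (X.J v.1, Z.J v.2.1)) := by
  classical
  let f : X.Om × (Z.Om × Z.Om) → E := fun v => X.X v.1 + (Z.X v.2.1 + Z.X v.2.2)
  let κ : Z.Om → Z.Om → ℝ := fun w => condPM Z.m Z.J (Z.J w)
  let G : X.Om → Z.Om → ℝ := fun x w =>
    ent (prodPM (condPM X.m X.J (X.J x)) (prodPM (κ w) (κ w))) f
  -- right side
  have hR : cent (prodPM X.m (cprod Z.m Z.J)) f (fun v => (X.J v.1, Z.J v.2.1))
      = ∑ x, X.m x * ∑ w, Z.m w * G x w := by
    rw [cent_prod_avg X.hm (isPM_cprod Z.hm Z.J) f X.J (fun v => Z.J v.1)]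
    refine Finset.sum_congr rfl fun x _ => ?_
    congr 1
    have h1 : ∀ y : Z.Om × Z.Om, cprod Z.m Z.J y * ent (prodPM (condPM X.m X.J (X.J x))
        (condPM (cprod Z.m Z.J) (fun v => Z.J v.1) (Z.J y.1))) f
        = cprod Z.m Z.J y * G x y.1 := by
      intro y
      rcases ((isPM_cprod Z.hm Z.J).nonneg y).eq_or_lt with h0 | h0
      · rw [← h0]; simp
      · rw [condPM_cprod Z.hm Z.J (cprod_pos Z.hm Z.J h0).2.1]
    rw [Finset.sum_congr rfl fun y _ => h1 y]
    exact (mp_cprod_fst Z.hm Z.J).sum_eq (fun w => G x w)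
  -- left side
  have hL : ∀ w, Z.m w * H (add X (add (sl Z w) (sl Z w))) = Z.m w * ∑ x, X.m x * G x w := by
    intro w
    rcases (Z.hm.nonneg w).eq_or_lt with h0 | h0
    · rw [← h0]; simp
    congr 1
    have hκ : IsPM (κ w) := isPM_cond Z.hm Z.J (lt_of_lt_of_le h0 (le_law Z.hm Z.J w))
    have e1 : H (add X (add (sl Z w) (sl Z w)))
        = cent (prodPM X.m (prodPM (κ w) (κ w))) f
          (fun v => (X.J v.1, (Z.J v.2.1, Z.J v.2.2))) :=
      congrArg (fun μ : Z.Om → ℝ => cent (prodPM X.m (prodPM μ μ)) f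
        (fun v => (X.J v.1, (Z.J v.2.1, Z.J v.2.2)))) (sl_m Z h0)
    rw [e1, cent_prod_avg X.hm (isPM_prod hκ hκ) f X.J (fun v => (Z.J v.1, Z.J v.2))]
    refine Finset.sum_congr rfl fun x _ => ?_
    congr 1
    have h1 : ∀ y : Z.Om × Z.Om, prodPM (κ w) (κ w) y * ent (prodPM (condPM X.m X.J (X.J x))
        (condPM (prodPM (κ w) (κ w)) (fun v => (Z.J v.1, Z.J v.2)) (Z.J y.1, Z.J y.2))) f
        = prodPM (κ w) (κ w) y * G x w := by
      intro y
      rcases ((isPM_prod hκ hκ).nonneg y).eq_or_lt with h2 | h2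
      · rw [← h2]; simp
      · have h3 : 0 < κ w y.1 := by
          rcases (hκ.nonneg y.1).eq_or_lt with h3 | h3
          · exfalso; unfold prodPM at h2; rw [← h3, zero_mul] at h2; exact lt_irrefl _ h2
          · exact h3
        have h4 : 0 < κ w y.2 := by
          rcases (hκ.nonneg y.2).eq_or_lt with h4 | h4
          · exfalso; unfold prodPM at h2; rw [← h4, mul_zero] at h2; exact lt_irrefl _ h2
          · exact h4
        rw [condPM_prod, condPM_condPM Z.hm Z.J h0 h3, condPM_condPM Z.hm Z.J h0 h4]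
    rw [Finset.sum_congr rfl fun y _ => h1 y, ← Finset.sum_mul, (isPM_prod hκ hκ).sum_one,
      one_mul]
  rw [Finset.sum_congr rfl fun w _ => hL w]
  refine Eq.trans ?_ hR.symm
  simp only [Finset.mul_sum]
  rw [Finset.sum_comm]
  exact Finset.sum_congr rfl fun x _ => Finset.sum_congr rfl fun w _ => by ring

/-- The fibre inequality: `X`, `U`, `W` independent, `Z = (U | U + W)`. -/
theorem B5 [Two E] (X U W : Fam E) :
    H (add X (fold U W)) + ∑ w, (fold U W).m w *
        H (add X (add (sl (fold U W) w) (sl (fold U W) w)))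
      ≤ H (add X U) + H (add X W) := by
  classical
  have two := Two.two (E := E)
  let Z := fold U W
  let ρ : Z.Om × Z.Om → ℝ := cprod Z.m Z.J
  have hρ : IsPM ρ := isPM_cprod Z.hm Z.J
  let μ : X.Om × (Z.Om × Z.Om) → ℝ := prodPM X.m ρ
  have hμ : IsPM μ := isPM_prod X.hm hρ
  -- the variables
  let T : X.Om × (Z.Om × Z.Om) → E := fun v => X.X v.1 + (Z.X v.2.1 + Z.X v.2.2)
  let Z1 : X.Om × (Z.Om × Z.Om) → E := fun v => X.X v.1 + U.X v.2.1.1
  let Z2 : X.Om × (Z.Om × Z.Om) → E := fun v => X.X v.1 + W.X v.2.1.2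
  let L : X.Om × (Z.Om × Z.Om) → X.St × (U.St × W.St) :=
    fun v => (X.J v.1, (U.J v.2.1.1, W.J v.2.1.2))
  let L' : X.Om × (Z.Om × Z.Om) → X.St × (U.St × W.St) :=
    fun v => (X.J v.1, (U.J v.2.2.1, W.J v.2.2.2))
  let A : X.Om × (Z.Om × Z.Om) → E := fun v => U.X v.2.2.1
  let B : X.Om × (Z.Om × Z.Om) → E := fun v => W.X v.2.2.2
  -- the support
  have hsupp : ∀ v, 0 < μ v → U.X v.2.1.1 + W.X v.2.1.2 = U.X v.2.2.1 + W.X v.2.2.2 ∧
      U.J v.2.1.1 = U.J v.2.2.1 ∧ W.J v.2.1.2 = W.J v.2.2.2 := by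
    intro v hv
    have h1 : 0 < ρ v.2 := by
      rcases (hρ.nonneg v.2).eq_or_lt with h | h
      · exfalso
        have : μ v = 0 := by show X.m v.1 * ρ v.2 = 0; rw [← h, mul_zero]
        rw [this] at hv; exact lt_irrefl _ hv
      · exact h
    have h2 := (cprod_pos Z.hm Z.J h1).1
    have h3 : ((U.X v.2.1.1 + W.X v.2.1.2), U.J v.2.1.1, W.J v.2.1.2)
        = ((U.X v.2.2.1 + W.X v.2.2.2), U.J v.2.2.1, W.J v.2.2.2) := h2
    simp only [Prod.mk.injEq] at h3
    exact h3
  have hsub := ent_submod hμ Z1 Z2 (pr T L)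
  -- (a)
  have ea : ∑ w, Z.m w * H (add X (add (sl Z w) (sl Z w))) ≤ ent μ (pr T L) - ent μ L := by
    rw [B5_avg]
    have h1 : cent μ T (fun v => (X.J v.1, Z.J v.2.1)) ≤ cent μ T L :=
      cent_anti hμ T fun v v' h => by
        have h2 : X.J v.1 = X.J v'.1 ∧ (U.X v.2.1.1 + W.X v.2.1.2 = U.X v'.2.1.1 + W.X v'.2.1.2 ∧
            U.J v.2.1.1 = U.J v'.2.1.1 ∧ W.J v.2.1.2 = W.J v'.2.1.2) := by
          simpa [Z, fold] using h
        simp only [L, Prod.mk.injEq]
        exact ⟨h2.1, h2.2.2.1, h2.2.2.2⟩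
    exact h1
  -- projections
  have mp1 : MP μ (fun v => (v.1, v.2.1)) (prodPM X.m (prodPM U.m W.m)) :=
    mp_prodMap (mp_id X.m) (mp_cprod_fst Z.hm Z.J)
  have mp2 : MP μ (fun v => (v.1, v.2.2)) (prodPM X.m (prodPM U.m W.m)) :=
    mp_prodMap (mp_id X.m) (mp_cprod_snd Z.hm Z.J)
  have hUW : IsPM (prodPM U.m W.m) := isPM_prod U.hm W.hm
  have eL : ent μ L = ent X.m X.J + (ent U.m U.J + ent W.m W.J) := by
    have h1 := ent_comp_of_mp mp1
      (fun v : X.Om × (U.Om × W.Om) => (X.J v.1, (U.J v.2.1, W.J v.2.2)))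
    have h2 := ent_prod X.hm hUW X.J (fun v => (U.J v.1, W.J v.2))
    have h3 := ent_prod U.hm W.hm U.J W.J
    exact h1.trans (h2.trans (congrArg (fun t => ent X.m X.J + t) h3))
  have eL' : ent μ L' = ent μ L := ent_congr_supp hμ fun v v' hv hv' => by
    obtain ⟨_, b1, b2⟩ := hsupp v hv
    obtain ⟨_, b1', b2'⟩ := hsupp v' hv'
    simp only [L, L', Prod.mk.injEq]
    rw [b1, b2, b1', b2']
  -- the pairs with labels
  have eZ1 : ent μ (pr Z1 L) = H (add X U) + ent μ L := by
    have h1 := ent_comp_of_mp mp1 (fun v : X.Om × (U.Om × W.Om) =>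
      (X.X v.1 + U.X v.2.1, (X.J v.1, (U.J v.2.1, W.J v.2.2))))
    have h2 := ent_comp_of_mp (mp_assoc X.m U.m W.m) (fun v : X.Om × (U.Om × W.Om) =>
      (X.X v.1 + U.X v.2.1, (X.J v.1, (U.J v.2.1, W.J v.2.2))))
    have h3 := ent_prod (isPM_prod X.hm U.hm) W.hm
      (pr (add X U).X (add X U).J) W.J
    have h4 : ent (prodPM (prodPM X.m U.m) W.m)
        (fun v => (X.X v.1.1 + U.X v.1.2, (X.J v.1.1, (U.J v.1.2, W.J v.2))))
        = ent (prodPM (prodPM X.m U.m) W.m)
        (fun v => (pr (add X U).X (add X U).J v.1, W.J v.2)) := ent_congr _ fun v v' => by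
      simp only [pr, add, Prod.mk.injEq]; tauto
    have h5 : ent (prodPM X.m U.m) (pr (add X U).X (add X U).J)
        = H (add X U) + ent (prodPM X.m U.m) (add X U).J := by
      show _ = cent (add X U).m (add X U).X (add X U).J + _
      unfold cent
      show _ = _ - ent (prodPM X.m U.m) (add X U).J + _
      rw [sub_add_cancel]; rfl
    have h6 := ent_prod X.hm U.hm X.J U.J
    have h7 : ent (prodPM X.m U.m) (add X U).J = ent X.m X.J + ent U.m U.J := h6
    have h8 : ent μ (pr Z1 L) = ent (prodPM X.m U.m) (pr (add X U).X (add X U).J)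
        + ent W.m W.J := h1.trans (h2.symm.trans (h4.trans h3))
    rw [h8, h5, h7, eL]
    ring
  have eZ2 : ent μ (pr Z2 L) = H (add X W) + ent μ L := by
    have h1 := ent_comp_of_mp mp1 (fun v : X.Om × (U.Om × W.Om) =>
      (X.X v.1 + W.X v.2.2, (X.J v.1, (U.J v.2.1, W.J v.2.2))))
    have mp3 : MP (prodPM (prodPM X.m W.m) U.m) (fun v => (v.1.1, (v.2, v.1.2)))
        (prodPM X.m (prodPM U.m W.m)) :=
      mp_of_equiv ⟨fun v => (v.1.1, (v.2, v.1.2)), fun v => ((v.1, v.2.2), v.2.1),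
        fun _ => rfl, fun _ => rfl⟩ fun w => by
        simp only [prodPM, Equiv.coe_fn_mk]; ring
    have h2 := ent_comp_of_mp mp3 (fun v : X.Om × (U.Om × W.Om) =>
      (X.X v.1 + W.X v.2.2, (X.J v.1, (U.J v.2.1, W.J v.2.2))))
    have h3 := ent_prod (isPM_prod X.hm W.hm) U.hm
      (pr (add X W).X (add X W).J) U.J
    have h4 : ent (prodPM (prodPM X.m W.m) U.m)
        (fun v => (X.X v.1.1 + W.X v.1.2, (X.J v.1.1, (U.J v.2, W.J v.1.2))))
        = ent (prodPM (prodPM X.m W.m) U.m)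
        (fun v => (pr (add X W).X (add X W).J v.1, U.J v.2)) := ent_congr _ fun v v' => by
      simp only [pr, add, Prod.mk.injEq]; tauto
    have h5 : ent (prodPM X.m W.m) (pr (add X W).X (add X W).J)
        = H (add X W) + ent (prodPM X.m W.m) (add X W).J := by
      show _ = cent (add X W).m (add X W).X (add X W).J + _
      unfold cent
      show _ = _ - ent (prodPM X.m W.m) (add X W).J + _
      rw [sub_add_cancel]; rfl
    have h6 := ent_prod X.hm W.hm X.J W.J
    have h7 : ent (prodPM X.m W.m) (add X W).J = ent X.m X.J + ent W.m W.J := h6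
    have h8 : ent μ (pr Z2 L) = ent (prodPM X.m W.m) (pr (add X W).X (add X W).J)
        + ent U.m U.J := h1.trans (h2.symm.trans (h4.trans h3))
    rw [h8, h5, h7, eL]
    ring
  have eA : ent μ (pr A L) = H U + ent μ L := by
    have h0 : ent μ (pr A L) = ent μ (pr A L') := ent_congr_supp hμ fun v v' hv hv' => by
      obtain ⟨_, b1, b2⟩ := hsupp v hv
      obtain ⟨_, b1', b2'⟩ := hsupp v' hv'
      simp only [pr, L, L', Prod.mk.injEq]
      rw [b1, b2, b1', b2']
    have h1 := ent_comp_of_mp mp2 (fun v : X.Om × (U.Om × W.Om) =>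
      (U.X v.2.1, (X.J v.1, (U.J v.2.1, W.J v.2.2))))
    have h2 := ent_prod X.hm hUW X.J (fun v : U.Om × W.Om => (pr U.X U.J v.1, W.J v.2))
    have h3 := ent_prod U.hm W.hm (pr U.X U.J) W.J
    have h4 : ent (prodPM X.m (prodPM U.m W.m))
        (fun v => (U.X v.2.1, (X.J v.1, (U.J v.2.1, W.J v.2.2))))
        = ent (prodPM X.m (prodPM U.m W.m))
        (fun v => (X.J v.1, (pr U.X U.J v.2.1, W.J v.2.2))) := ent_congr _ fun v v' => by
      simp only [pr, Prod.mk.injEq]; tauto
    have h5 : ent U.m (pr U.X U.J) = H U + ent U.m U.J := by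
      unfold H cent
      rw [sub_add_cancel]
    have h8 : ent μ (pr A L') = ent X.m X.J + (ent U.m (pr U.X U.J) + ent W.m W.J) :=
      h1.trans (h4.trans (h2.trans (congrArg (fun t => ent X.m X.J + t) h3)))
    rw [h0, h8, h5, eL]
    ring
  have eB : ent μ (pr B L) = H W + ent μ L := by
    have h0 : ent μ (pr B L) = ent μ (pr B L') := ent_congr_supp hμ fun v v' hv hv' => by
      obtain ⟨_, b1, b2⟩ := hsupp v hv
      obtain ⟨_, b1', b2'⟩ := hsupp v' hv'
      simp only [pr, L, L', Prod.mk.injEq]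
      rw [b1, b2, b1', b2']
    have h1 := ent_comp_of_mp mp2 (fun v : X.Om × (U.Om × W.Om) =>
      (W.X v.2.2, (X.J v.1, (U.J v.2.1, W.J v.2.2))))
    have h2 := ent_prod X.hm hUW X.J (fun v : U.Om × W.Om => (U.J v.1, pr W.X W.J v.2))
    have h3 := ent_prod U.hm W.hm U.J (pr W.X W.J)
    have h4 : ent (prodPM X.m (prodPM U.m W.m))
        (fun v => (W.X v.2.2, (X.J v.1, (U.J v.2.1, W.J v.2.2))))
        = ent (prodPM X.m (prodPM U.m W.m))
        (fun v => (X.J v.1, (U.J v.2.1, pr W.X W.J v.2.2))) := ent_congr _ fun v v' => by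
      simp only [pr, Prod.mk.injEq]; tauto
    have h5 : ent W.m (pr W.X W.J) = H W + ent W.m W.J := by
      unfold H cent
      rw [sub_add_cancel]
    have h8 : ent μ (pr B L') = ent X.m X.J + (ent U.m U.J + ent W.m (pr W.X W.J)) :=
      h1.trans (h4.trans (h2.trans (congrArg (fun t => ent X.m X.J + t) h3)))
    rw [h0, h8, h5, eL]
    ring
  -- (b)
  have eb : ent μ (pr Z1 (pr T L)) ≤ ent μ (pr Z1 L) + ent μ (pr A L) - ent μ L := by
    have h1 : ent μ (pr Z1 (pr T L)) = ent μ (pr (pr Z1 A) L) := ent_congr _ fun v v' => by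
      have hT : ∀ v, T v = Z1 v + A v := fun v => (add_assoc _ _ _).symm
      simp only [pr_eq]
      rw [hT v, hT v']
      constructor
      · rintro ⟨a, b, c⟩
        rw [a] at b
        exact ⟨⟨a, add_left_cancel b⟩, c⟩
      · rintro ⟨⟨a, b⟩, c⟩
        exact ⟨a, by rw [a, b], c⟩
    rw [h1]
    exact ent_pair_le hμ Z1 A L
  -- (c)
  have ec : ent μ (pr Z2 (pr T L)) ≤ ent μ (pr Z2 L) + ent μ (pr B L) - ent μ L := by
    have hT : ∀ v, 0 < μ v → T v = Z2 v + B v := by
      intro v hv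
      have h1 := (hsupp v hv).1
      show X.X v.1 + (U.X v.2.1.1 + U.X v.2.2.1) = X.X v.1 + W.X v.2.1.2 + W.X v.2.2.2
      have h2 : U.X v.2.1.1 + U.X v.2.2.1 = W.X v.2.1.2 + W.X v.2.2.2 := by
        have h3 : U.X v.2.1.1 + U.X v.2.2.1 = (U.X v.2.1.1 + W.X v.2.1.2)
            + (W.X v.2.1.2 + U.X v.2.2.1) - (W.X v.2.1.2 + W.X v.2.1.2) := by abel
        rw [h3, two, sub_zero, h1]
        have h4 : U.X v.2.2.1 + W.X v.2.2.2 + (W.X v.2.1.2 + U.X v.2.2.1)
            = (U.X v.2.2.1 + U.X v.2.2.1) + (W.X v.2.1.2 + W.X v.2.2.2) := by abel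
        rw [h4, two, zero_add]
      rw [h2, add_assoc]
    have h1 : ent μ (pr Z2 (pr T L)) = ent μ (pr (pr Z2 B) L) :=
      ent_congr_supp hμ fun v v' hv hv' => by
      simp only [pr_eq]
      rw [hT v hv, hT v' hv']
      constructor
      · rintro ⟨a, b, c⟩
        rw [a] at b
        exact ⟨⟨a, add_left_cancel b⟩, c⟩
      · rintro ⟨⟨a, b⟩, c⟩
        exact ⟨a, by rw [a, b], c⟩
    rw [h1]
    exact ent_pair_le hμ Z2 B L
  -- (d)
  have ed : ent μ (pr (pr Z1 Z2) (pr T L)) = H (add X Z) + H U + H W + ent μ L := by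
    have h1 : ent μ (pr (pr Z1 Z2) (pr T L))
        = ent μ (fun v => (((Z1 v, X.J v.1), A v), Z.J v.2.1)) := ent_congr _ fun v v' => by
      have hT : ∀ v, T v = Z1 v + A v := fun v => (add_assoc _ _ _).symm
      have hS : ∀ v : X.Om × (Z.Om × Z.Om), U.X v.2.1.1 + W.X v.2.1.2 = Z1 v + Z2 v := by
        intro v
        show _ = X.X v.1 + U.X v.2.1.1 + (X.X v.1 + W.X v.2.1.2)
        have : X.X v.1 + U.X v.2.1.1 + (X.X v.1 + W.X v.2.1.2)
            = (X.X v.1 + X.X v.1) + (U.X v.2.1.1 + W.X v.2.1.2) := by abel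
        rw [this, two, zero_add]
      have hJ : ∀ v : X.Om × (Z.Om × Z.Om), Z.J v.2.1
          = (Z1 v + Z2 v, U.J v.2.1.1, W.J v.2.1.2) := by
        intro v
        rw [← hS v]; rfl
      constructor
      · intro h
        rw [pr_eq, pr_eq, pr_eq, hT v, hT v'] at h
        obtain ⟨⟨a, b⟩, c, l⟩ := h
        simp only [L, Prod.mk.injEq] at l
        obtain ⟨d, e, g⟩ := l
        rw [a] at c
        exact Prod.ext (Prod.ext (Prod.ext a d) (add_left_cancel c))
          ((hJ v).trans ((by rw [a, b, e, g] :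
            (Z1 v + Z2 v, U.J v.2.1.1, W.J v.2.1.2)
              = (Z1 v' + Z2 v', U.J v'.2.1.1, W.J v'.2.1.2)).trans (hJ v').symm))
      · intro h
        have a : Z1 v = Z1 v' := congrArg (fun p => p.1.1.1) h
        have d : X.J v.1 = X.J v'.1 := congrArg (fun p => p.1.1.2) h
        have c : A v = A v' := congrArg (fun p => p.1.2) h
        have j : Z.J v.2.1 = Z.J v'.2.1 := congrArg (fun p => p.2) h
        have j' : (Z1 v + Z2 v, U.J v.2.1.1, W.J v.2.1.2)
            = (Z1 v' + Z2 v', U.J v'.2.1.1, W.J v'.2.1.2) :=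
          (hJ v).symm.trans (j.trans (hJ v'))
        simp only [Prod.mk.injEq] at j'
        obtain ⟨b, e, g⟩ := j'
        rw [a] at b
        rw [pr_eq, pr_eq, pr_eq, hT v, hT v']
        refine ⟨⟨a, add_left_cancel b⟩, by rw [a, c], ?_⟩
        simp only [L, Prod.mk.injEq]
        exact ⟨d, e, g⟩
    let c : X.Om × Z.Om → Z.St := fun v => Z.J v.2
    have hXZ : IsPM (prodPM X.m Z.m) := isPM_prod X.hm Z.hm
    have h2 := ent_comp_of_mp (B5_mp (m' := Z.m) X.hm Z.J)
      (fun v : X.Om × (Z.Om × Z.Om) => (((Z1 v, X.J v.1), A v), Z.J v.2.1))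
    have h3 := ent_cprod hXZ c (fun v => (X.X v.1 + Z.X v.2, X.J v.1)) (fun v => Z.X v.2)
    have h4 : ent (cprod (prodPM X.m Z.m) c)
        (fun w => (((fun v : X.Om × Z.Om => (X.X v.1 + Z.X v.2, X.J v.1)) w.1,
          (fun v : X.Om × Z.Om => Z.X v.2) w.2), c w.1))
        = ent μ (fun v => (((Z1 v, X.J v.1), A v), Z.J v.2.1)) := h2
    have h5 : ent (prodPM X.m Z.m) c = ent Z.m Z.J := ent_comp_of_mp (mp_snd X.hm) Z.J
    have h6 : ent (prodPM X.m Z.m) (pr (fun v => Z.X v.2) c) = ent Z.m (pr Z.X Z.J) :=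
      ent_comp_of_mp (mp_snd X.hm) (pr Z.X Z.J)
    have h7 : ent (prodPM X.m Z.m) (pr (fun v => (X.X v.1 + Z.X v.2, X.J v.1)) c)
        = ent (prodPM X.m Z.m) (pr (add X Z).X (add X Z).J) := ent_congr _ fun v v' => by
      simp only [pr, add, c, Prod.mk.injEq]; tauto
    have h8 : ent (prodPM X.m Z.m) (pr (add X Z).X (add X Z).J)
        = H (add X Z) + ent (prodPM X.m Z.m) (add X Z).J := by
      show _ = cent (add X Z).m (add X Z).X (add X Z).J + _
      unfold cent
      show _ = _ - ent (prodPM X.m Z.m) (add X Z).J + _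
      rw [sub_add_cancel]; rfl
    have h9 : ent (prodPM X.m Z.m) (add X Z).J = ent X.m X.J + ent Z.m Z.J :=
      ent_prod X.hm Z.hm X.J Z.J
    have h10 : ent Z.m (pr Z.X Z.J) = H Z + ent Z.m Z.J := by
      show _ = cent Z.m Z.X Z.J + _
      unfold cent
      rw [sub_add_cancel]
    have h11 : H Z = H U + H W - H (add U W) := H_fold U W
    have h12 : ent Z.m Z.J = H (add U W) + (ent U.m U.J + ent W.m W.J) := by
      have e1 : ent Z.m Z.J = ent (prodPM U.m W.m) (pr (add U W).X (add U W).J) := rfl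
      have e2 : ent (prodPM U.m W.m) (add U W).J = ent U.m U.J + ent W.m W.J :=
        ent_prod U.hm W.hm U.J W.J
      rw [e1, ← e2]
      show _ = cent (add U W).m (add U W).X (add U W).J + _
      unfold cent
      show _ = _ - ent (prodPM U.m W.m) (add U W).J + _
      rw [sub_add_cancel]; rfl
    rw [h4] at h3
    rw [h1, eL]
    rw [h5, h6, h7, h8, h9, h10, h11, h12] at h3
    linarith
  have e9 : H (add X Z) + ∑ w, Z.m w * H (add X (add (sl Z w) (sl Z w)))
      ≤ H (add X U) + H (add X W) := by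
    linarith
  exact e9

/-- The fibre inequality for two copies of one family (no condition on the labels). -/
theorem B5_self [Two E] (X Y : Fam E) :
    1 / 2 * H (add X (fold Y Y)) + 1 / 2 * ∑ w, (fold Y Y).m w *
        H (add X (add (sl (fold Y Y) w) (sl (fold Y Y) w)))
      ≤ H (add X Y) := by
  have := B5 X Y Y
  linarith

end

end F2
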